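import Pool.Agent.W662.SK.StmtsA
import Pool.Agent.W662.SK.Basic

/-!
Project SK (helper662), A2: the letters.
-/

set_option autoImplicit false

open scoped InnerProductSpace ENNReal

namespace Pool.Agent.W179.SK

open Pool.Agent.W662.SK

theorem isRot_Rot (h : S_A1) {t : ℝ} (h0 : 0 ≤ t) (h1 : t ≤ 1) {s : G3} (hs : s ≠ 1) :
    IsRot t s (Rot t s) := by
  have hex := h t s h0 h1 hs
  unfold Rot
  rw [dif_pos hex]
  exact hex.choose_spec

theorem cs_sq {t : ℝ} (h0 : 0 ≤ t) (h1 : t ≤ 1) :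
    ((cs t : ℝ) : ℂ) * ((cs t : ℝ) : ℂ) + (t : ℂ) * (t : ℂ) = 1 := by
  have h : cs t * cs t + t * t = 1 := by
    unfold cs
    rw [Real.mul_self_sqrt (by nlinarith)]
    ring
  exact_mod_cast h

theorem inv_rot (h : S_A1) {t : ℝ} (h0 : 0 ≤ t) (h1 : t ≤ 1) {s : G3} (hs : s ≠ 1) :
    (Rot t s * Lam ℂ s) * (Rot t s⁻¹ * Lam ℂ s⁻¹) = 1 := by
  have hs' : s⁻¹ ≠ 1 := fun h => hs (inv_eq_one.1 h)
  have r1 := isRot_Rot h h0 h1 hs
  have r2 := isRot_Rot h h0 h1 hs'
  have hc := cs_sq h0 h1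
  refine LinearIsometryEquiv.ext fun f => l2_ext fun x => ?_
  change Rot t s (Lam ℂ s (Rot t s⁻¹ (Lam ℂ s⁻¹ f))) x = f x
  obtain ⟨g, hg⟩ : ∃ g, g = Rot t s⁻¹ (Lam ℂ s⁻¹ f) := ⟨_, rfl⟩
  rw [← hg]
  -- the values of `g`
  have gval : ∀ y, g y = rotFun (cs t) t s⁻¹ (fun y => f (s * y)) y := by
    intro y
    rw [hg, r2]
    congr 1
    funext z
    rw [Lam_apply, inv_inv]
  have g1 : g 1 = ((cs t : ℝ) : ℂ) * f s + (t : ℂ) * f 1 := by
    rw [gval]
    unfold rotFun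
    rw [if_pos rfl]
    beta_reduce
    rw [mul_one, mul_inv_cancel]
  have g2 : g s⁻¹ = ((cs t : ℝ) : ℂ) * f 1 - (t : ℂ) * f s := by
    rw [gval]
    unfold rotFun
    rw [if_neg hs', if_pos rfl]
    beta_reduce
    rw [mul_one, mul_inv_cancel]
  have g3 : ∀ y, y ≠ 1 → y ≠ s⁻¹ → g y = f (s * y) := by
    intro y hy hy'
    rw [gval]
    unfold rotFun
    rw [if_neg hy, if_neg hy']
  -- the values of `Lam s g`
  have l1 : Lam ℂ s g 1 = g s⁻¹ := by rw [Lam_apply, mul_one]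
  have l2 : Lam ℂ s g s = g 1 := by rw [Lam_apply, inv_mul_cancel]
  rw [r1]
  unfold rotFun
  by_cases hx1 : x = 1
  · rw [if_pos hx1]
    simp only [l1, l2, g1, g2]
    rw [hx1]
    linear_combination (f 1) * hc
  · rw [if_neg hx1]
    by_cases hxs : x = s
    · rw [if_pos hxs]
      simp only [l1, l2, g1, g2]
      rw [hxs]
      linear_combination (f s) * hc
    · rw [if_neg hxs]
      simp only [Lam_apply]
      rw [g3, mul_inv_cancel_left]
      · intro h
        exact hxs (inv_mul_eq_one.1 h).symm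
      · intro h
        exact hx1 (mul_eq_left.1 h)

theorem a2 (h : S_A1) : S_A2 := by
  intro t h0 h1 p
  obtain ⟨i, b⟩ := p
  cases b with
  | true =>
    have e : lt (i, true) = FreeGroup.of i := rfl
    rw [e]
    unfold rp
    rw [FreeGroup.lift_apply_of]
  | false =>
    have e : lt (i, false) = (FreeGroup.of i)⁻¹ := rfl
    rw [e, map_inv]
    have e2 : rp t (FreeGroup.of i) = Rot t (FreeGroup.of i) * Lam ℂ (FreeGroup.of i) := by
      unfold rp
      rw [FreeGroup.lift_apply_of]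
    rw [e2]
    exact inv_eq_of_mul_eq_one_right (inv_rot h h0 h1 (FreeGroup.of_ne_one i))

end Pool.Agent.W179.SK
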